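import Pool.Agent.helper5.SYM.SpecA

set_option autoImplicit false

namespace Pool.Agent.SYM
open Finset CT Polynomial

theorem SAS_mem {W : Type} [Fintype W] [DecidableEq W] (S : Finset W) (t : W → Fin 3) :
    t ∈ pf S ↔ ∀ w, w ∉ S → t w = 0 := by
  unfold pf
  rw [Fintype.mem_piFinset]
  constructor
  · intro h w hw
    have h1 := h w
    rw [if_neg hw] at h1
    exact Finset.mem_singleton.1 h1
  · intro h w
    by_cases hw : w ∈ S
    · rw [if_pos hw]; exact mem_univ _
    · rw [if_neg hw]; exact Finset.mem_singleton.2 (h w hw)

theorem SAS_loc {W A : Type} [DecidableEq W] [AddCommGroup A] (L : List W) :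
    ∀ (e : W × Fin 4 → W × Fin 4) (α : W × Fin 4 → A) (t t' : W → Fin 3), (∀ w ∈ L, t w = t' w) →
      lpsv L e α t = lpsv L e α t' ∧ fe L e t = fe L e t' ∧ fa L e α t = fa L e α t' := by
  induction L with
  | nil => intro e α t t' _; exact ⟨rfl, rfl, rfl⟩
  | cons u L ih =>
    intro e α t t' h
    have hu : t u = t' u := h u List.mem_cons_self
    obtain ⟨h1, h2, h3⟩ := ih (sm e u (t' u)) (smv e α u (t' u)) t t'
      (fun w hw => h w (List.mem_cons_of_mem _ hw))
    refine ⟨?_, ?_, ?_⟩
    · show lsv e α u (t u) + lpsv L (sm e u (t u)) (smv e α u (t u)) t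
        = lsv e α u (t' u) + lpsv L (sm e u (t' u)) (smv e α u (t' u)) t'
      rw [hu, h1]
    · show fe L (sm e u (t u)) t = fe L (sm e u (t' u)) t'
      rw [hu, h2]
    · show fa L (sm e u (t u)) (smv e α u (t u)) t = fa L (sm e u (t' u)) (smv e α u (t' u)) t'
      rw [hu, h3]

theorem SAS_sum {W M : Type} [Fintype W] [DecidableEq W] [AddCommMonoid M] (S : Finset W) (u : W)
    (hu : u ∉ S) (f : (W → Fin 3) → M) :
    ∑ t ∈ pf (insert u S), f t = ∑ s : Fin 3, ∑ t ∈ pf S, f (Function.update t u s) := by
  rw [← Finset.sum_product']
  symm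
  apply Finset.sum_nbij' (fun x => Function.update x.2 u x.1)
    (fun t => (t u, Function.update t u 0))
  · rintro ⟨s, t⟩ hx
    rw [Finset.mem_product] at hx
    have ht := (SAS_mem S t).1 hx.2
    rw [SAS_mem]
    intro w hw
    rw [Finset.mem_insert, not_or] at hw
    show Function.update t u s w = 0
    rw [Function.update_of_ne hw.1]
    exact ht w hw.2
  · intro t ht
    have ht' := (SAS_mem _ t).1 ht
    rw [Finset.mem_product]
    refine ⟨mem_univ _, ?_⟩
    rw [SAS_mem]
    intro w hw
    by_cases hwu : w = u
    · rw [hwu]; exact Function.update_self _ _ _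
    · show Function.update t u 0 w = 0
      rw [Function.update_of_ne hwu]
      exact ht' w (by rw [Finset.mem_insert, not_or]; exact ⟨hwu, hw⟩)
  · rintro ⟨s, t⟩ hx
    rw [Finset.mem_product] at hx
    have ht := (SAS_mem S t).1 hx.2
    apply Prod.ext
    · exact Function.update_self _ _ _
    · show Function.update (Function.update t u s) u 0 = t
      rw [Function.update_idem]
      have h0 : t u = 0 := ht u hu
      rw [← h0, Function.update_eq_self]
  · intro t _
    show Function.update (Function.update t u 0) u (t u) = t
    rw [Function.update_idem, Function.update_eq_self]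
  · intro x _
    rfl

theorem SAS : SAS_stmt := by
  intro W A _ _ _ Ω L
  induction L with
  | nil =>
    intro e α _
    have h1 : pf (([] : List W).toFinset) = {fun _ => 0} := by
      ext t
      rw [SAS_mem, Finset.mem_singleton]
      constructor
      · intro h
        funext w
        exact h w (by simp)
      · rintro rfl w _
        rfl
    rw [h1, Finset.sum_singleton]
    show Ω e α = X ^ 0 * Ω e α
    rw [pow_zero, one_mul]
  | cons u L ih =>
    intro e α hnd
    rw [List.nodup_cons] at hnd
    have hu : u ∉ L.toFinset := by rw [List.mem_toFinset]; exact hnd.1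
    rw [List.toFinset_cons, SAS_sum _ u hu]
    show ∑ s : Fin 3, X ^ lsv e α u s * SA Ω L (sm e u s) (smv e α u s) = _
    apply Finset.sum_congr rfl
    intro s _
    rw [ih _ _ hnd.2, Finset.mul_sum]
    apply Finset.sum_congr rfl
    intro t _
    have hloc : ∀ w ∈ L, Function.update t u s w = t w := by
      intro w hw
      apply Function.update_of_ne
      rintro rfl
      exact hnd.1 hw
    obtain ⟨h1, h2, h3⟩ := SAS_loc L (sm e u s) (smv e α u s) (Function.update t u s) t hloc
    have h4 : Function.update t u s u = s := Function.update_self _ _ _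
    show _ = X ^ (lsv e α u (Function.update t u s u) +
        lpsv L (sm e u (Function.update t u s u)) (smv e α u (Function.update t u s u))
          (Function.update t u s)) *
      Ω (fe L (sm e u (Function.update t u s u)) (Function.update t u s))
        (fa L (sm e u (Function.update t u s u)) (smv e α u (Function.update t u s u))
          (Function.update t u s))
    rw [h4, h1, h2, h3, pow_add, mul_assoc]

end Pool.Agent.SYM
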